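import Pool.Agent.N167.DY.Stm

/-!
# The barrier lemma and the scalar comparison (DY/1, DY/3)
-/

open Set Filter Topology

set_option autoImplicit false

namespace Pool.Agent.N415.DY

open Pool.Agent.N167.DY

/-- DY/1 (barrier lemma). -/
theorem t_barrier : S_barrier := by
  intro ι _ T φ φ' hT hd h0 hb
  have hcont : ∀ i, ContinuousOn (φ i) (Icc 0 T) := fun i t ht => (hd i t ht).continuousWithinAt
  have hclosed : IsClosed ({t : ℝ | ∀ i, 0 ≤ φ i t} ∩ Icc 0 T) := by
    have e : {t : ℝ | ∀ i, 0 ≤ φ i t} ∩ Icc 0 T =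
        Icc 0 T ∩ ⋂ i, (Icc 0 T ∩ (φ i) ⁻¹' Ici 0) := by
      ext t
      simp only [mem_inter_iff, mem_ofPred_eq, mem_iInter, mem_preimage, mem_Ici]
      constructor
      · rintro ⟨h1, h2⟩
        exact ⟨h2, fun i => ⟨h2, h1 i⟩⟩
      · rintro ⟨h1, h2⟩
        exact ⟨fun i => (h2 i).2, h1⟩
    rw [e]
    exact isClosed_Icc.inter (isClosed_iInter fun i =>
      (hcont i).preimage_isClosed_of_isClosed isClosed_Icc isClosed_Ici)
  have hmain : Icc 0 T ⊆ {t : ℝ | ∀ i, 0 ≤ φ i t} := by
    apply hclosed.Icc_subset_of_forall_mem_nhdsWithin h0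
    rintro x ⟨hx, hxI⟩
    have hx' : x ∈ Icc 0 T := ⟨hxI.1, hxI.2.le⟩
    change ∀ᶠ y in 𝓝[>] x, ∀ i, 0 ≤ φ i y
    rw [eventually_all]
    intro i
    have h1 : HasDerivWithinAt (φ i) (φ' i x) (Ioi x) x :=
      (hd i x hx').mono_of_mem_nhdsWithin (Icc_mem_nhdsGT_of_mem hxI)
    rcases eq_or_lt_of_le (hx i) with h2 | h2
    · have h3 : 0 < φ' i x := hb i x hxI hx h2.symm
      have h4 : Tendsto (slope (φ i) x) (𝓝[>] x) (𝓝 (φ' i x)) :=
        (hasDerivWithinAt_iff_tendsto_slope' (by simp)).1 h1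
      have h5 : ∀ᶠ y in 𝓝[>] x, 0 < slope (φ i) x y := h4.eventually (lt_mem_nhds h3)
      filter_upwards [h5, self_mem_nhdsWithin] with y hy hxy
      have h6 : (y - x) • slope (φ i) x y = φ i y - φ i x := sub_smul_slope _ _ _
      have h7 : 0 < (y - x) • slope (φ i) x y := smul_pos (sub_pos.2 hxy) hy
      rw [h6, ← h2, sub_zero] at h7
      exact h7.le
    · exact (h1.continuousWithinAt.eventually (lt_mem_nhds h2)).mono fun y hy => le_of_lt hy
  intro i t ht
  exact hmain ht i

/-- DY/3 (scalar comparison). -/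
theorem t_scalar : S_scalar := by
  intro T M y y' hT hd h0 hb t ht
  have key : ∀ e : ℝ, 0 < e → y t ≤ M + e * (1 + t) := by
    intro e he
    have := t_barrier Unit T (fun _ s => M + e * (1 + s) - y s) (fun _ s => e - y' s) hT
      (by
        intro _ s hs
        have h1 : HasDerivWithinAt (fun s : ℝ => M + e * (1 + s)) e (Icc 0 T) s := by
          have := (((hasDerivAt_id s).const_add 1).const_mul e).const_add M
          simpa using this.hasDerivWithinAt
        exact h1.sub (hd s hs))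
      (by intro _; simp only [add_zero, mul_one]; linarith)
      (by
        intro _ s hs _ hz
        have hs' : s ∈ Icc 0 T := ⟨hs.1, hs.2.le⟩
        have h2 : 0 < e * (1 + s) := mul_pos he (by linarith [hs.1])
        have h3 := hb s hs' (by linarith)
        linarith) () t ht
    linarith
  have hpos : 0 < 1 + t := by linarith [ht.1]
  apply le_of_forall_pos_le_add
  intro ε hε
  have := key (ε / (1 + t)) (div_pos hε hpos)
  rw [div_mul_cancel₀ _ hpos.ne'] at this
  exact this

end Pool.Agent.N415.DY
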